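import Mathlib
import Pool.Agent.Schutte.Defs

/-!
# MP_42c63a_co: `m(k) ≥ 0.76 k 2^k` for all `k ≥ 400000`

The classical lower bound of E. and G. Szekeres is `2^(k-1) (k+2) - 1 ~ (1/2) k 2^k`.

Proof. Write `D(A)` for the set of common in-neighbours (dominators) of `A`.
* `|D(A)| ≥ k + 1` if `|A| = k - 1` (otherwise some `x` dominates `D(A)` and `A ∪ {x}` has no
  dominator).
* If `|D(A)| ≥ L` for all `A` with `|A| = j + 1` then `|D(A)| ≥ 2 L + 1` for all `|A| = j`.
* New step: let `|D(A)| ≥ L` for all `|A| = j + 1`, let `|A| = j` and let `D' ⊇ D(A)` have `M`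
  elements. Every out-neighbourhood misses at least `L` elements of `D'`, and every `k`-subset of
  `D'` lies in an out-neighbourhood, so `C(M,k) ≤ n C(M-L,k)`. As long as `n ≤ k 2^k` this forces
  `M` to be larger than about `2 L + k / 2`.

Tournaments with property `S_k` exist by the counting argument of Erdős, so the minimum `m k` is
attained.
-/

namespace Pool.Agent.Results.MP_42c63a_co.AsymptoticLower

open Pool.Agent.Schutte Finset

section basic

variable {n : ℕ} (T : Tournament (Fin n))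

open Classical in
/-- common in-neighbours of `A` -/
noncomputable def D (A : Finset (Fin n)) : Finset (Fin n) :=
  univ.filter (fun v => ∀ a ∈ A, T.Adj v a)

lemma mem_D (A : Finset (Fin n)) (v : Fin n) : v ∈ D T A ↔ ∀ a ∈ A, T.Adj v a := by
  simp [D]

lemma asymm {u v : Fin n} (h : T.Adj u v) (h' : T.Adj v u) : False := by
  by_cases huv : u = v
  · subst huv; exact T.loopless _ h
  · rcases T.exactlyOne u v huv with ⟨_, h2⟩ | ⟨h2, _⟩
    · exact h2 h'
    · exact h2 h

lemma dom_le {k : ℕ} (hk : k ≤ n) (hS : T.HasS k) (S : Finset (Fin n)) (h : S.card ≤ k) :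
    ∃ v, ∀ w ∈ S, T.Adj v w := by
  obtain ⟨S', hSS', hc⟩ := Finset.exists_superset_card_eq (s := S) h (by simpa using hk)
  obtain ⟨v, hv⟩ := hS S' hc
  exact ⟨v, fun w hw => hv w (hSS' hw)⟩

/-- all sets of size `j` have at least `L` dominators -/
def P (j L : ℕ) : Prop := ∀ A : Finset (Fin n), A.card = j → L ≤ (D T A).card

lemma level_one {k : ℕ} (hk : k + 1 ≤ n) (hS : T.HasS (k + 1)) : P T k (k + 2) := by
  classical
  intro A hA
  by_contra hlt
  have hle : (D T A).card ≤ k + 1 := by omega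
  obtain ⟨x, hx⟩ := dom_le T hk hS (D T A) hle
  obtain ⟨d, hd⟩ := dom_le T hk hS (insert x A) (by
    have := Finset.card_insert_le x A
    omega)
  have hdA : d ∈ D T A := by
    rw [mem_D]
    intro a ha
    exact hd a (Finset.mem_insert_of_mem ha)
  exact asymm T (hx d hdA) (hd x (Finset.mem_insert_self _ _))

lemma D_insert (A : Finset (Fin n)) (x v : Fin n) :
    v ∈ D T (insert x A) ↔ v ∈ D T A ∧ T.Adj v x := by
  classical
  rw [mem_D, mem_D]
  constructor
  · intro h
    exact ⟨fun a ha => h a (Finset.mem_insert_of_mem ha), h x (Finset.mem_insert_self _ _)⟩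
  · rintro ⟨h1, h2⟩ a ha
    rcases Finset.mem_insert.1 ha with rfl | ha
    · exact h2
    · exact h1 a ha

lemma not_mem_of_mem_D {A : Finset (Fin n)} {v : Fin n} (h : v ∈ D T A) : v ∉ A := by
  intro hv
  exact T.loopless v ((mem_D T A v).1 h v hv)

lemma double {k j L : ℕ} (hk : k ≤ n) (hj : j ≤ k) (hS : T.HasS k) (h : P T (j + 1) L) :
    P T j (2 * L + 1) := by
  classical
  intro A hA
  set X := D T A with hX
  obtain ⟨d, hd⟩ := dom_le T hk hS A (by omega)
  have hdX : d ∈ X := (mem_D T A d).2 hd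
  have hpos : 0 < X.card := Finset.card_pos.2 ⟨d, hdX⟩
  have h1 : ∀ v ∈ X, L ≤ (X.filter (fun u => T.Adj u v)).card := by
    intro v hv
    have hvA := not_mem_of_mem_D T hv
    have := h (insert v A) (by rw [Finset.card_insert_of_notMem hvA, hA])
    refine this.trans (Finset.card_le_card ?_)
    intro u hu
    rw [D_insert] at hu
    exact Finset.mem_filter.2 ⟨hu.1, hu.2⟩
  have hsum : ∑ v ∈ X, (X.filter (fun u => T.Adj u v)).card
      + ∑ v ∈ X, (X.filter (fun u => T.Adj v u)).card = X.card * (X.card - 1) := by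
    rw [← Finset.sum_add_distrib]
    have : ∀ v ∈ X, (X.filter (fun u => T.Adj u v)).card + (X.filter (fun u => T.Adj v u)).card
        = X.card - 1 := by
      intro v hv
      rw [← Finset.card_erase_of_mem hv, ← Finset.card_union_of_disjoint]
      · congr 1
        ext u
        simp only [Finset.mem_union, Finset.mem_filter, Finset.mem_erase]
        constructor
        · rintro (⟨h1, h2⟩ | ⟨h1, h2⟩)
          · exact ⟨fun e => by subst e; exact T.loopless _ h2, h1⟩
          · exact ⟨fun e => by subst e; exact T.loopless _ h2, h1⟩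
        · rintro ⟨h1, h2⟩
          rcases T.exactlyOne u v h1 with h3 | h3
          · exact Or.inl ⟨h2, h3.1⟩
          · exact Or.inr ⟨h2, h3.2⟩
      · rw [Finset.disjoint_left]
        intro u hu hu'
        exact asymm T (Finset.mem_filter.1 hu).2 (Finset.mem_filter.1 hu').2
    rw [Finset.sum_congr rfl this, Finset.sum_const, smul_eq_mul]
  have hcomm : ∑ v ∈ X, (X.filter (fun u => T.Adj v u)).card
      = ∑ v ∈ X, (X.filter (fun u => T.Adj u v)).card := by
    simp only [Finset.card_filter]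
    exact Finset.sum_comm
  have hge : X.card * L ≤ ∑ v ∈ X, (X.filter (fun u => T.Adj u v)).card := by
    rw [← smul_eq_mul, ← Finset.sum_const]
    exact Finset.sum_le_sum h1
  have : X.card * (2 * L) ≤ X.card * (X.card - 1) := by
    rw [← hsum, hcomm]
    nlinarith
  have := Nat.le_of_mul_le_mul_left this hpos
  omega

lemma double_iter {k L : ℕ} (hk : k ≤ n) (hS : T.HasS k) (j : ℕ) (hj : j ≤ k)
    (h : P T j L) : 2 ^ j * (L + 1) ≤ n + 1 := by
  induction j generalizing L with
  | zero =>
    have := h ∅ rfl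
    have h2 : (D T ∅).card ≤ n := by
      have := Finset.card_le_univ (D T ∅)
      simpa using this
    simp
    omega
  | succ j ih =>
    have := ih (by omega) (double T hk (by omega) hS h)
    calc 2 ^ (j + 1) * (L + 1) = 2 ^ j * (2 * L + 1 + 1) := by ring
      _ ≤ n + 1 := this

/-- the new counting step -/
lemma count {k j L M : ℕ} (hk : k ≤ n) (hj : j < k) (hS : T.HasS k) (h : P T (j + 1) L)
    (A : Finset (Fin n)) (hA : A.card = j) (hM : (D T A).card ≤ M) (hMn : M ≤ n) :
    M.choose k ≤ n * (M - L).choose k := by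
  classical
  obtain ⟨X, hDX, hX⟩ := Finset.exists_superset_card_eq (s := D T A) hM (by simpa using hMn)
  have hL : L ≤ (D T A).card := by
    have : ∃ y, y ∉ A := by
      by_contra hcon
      push Not at hcon
      have : A = univ := Finset.eq_univ_iff_forall.2 hcon
      rw [this, Finset.card_univ, Fintype.card_fin] at hA
      omega
    obtain ⟨y, hy⟩ := this
    have := h (insert y A) (by rw [Finset.card_insert_of_notMem hy, hA])
    refine this.trans (Finset.card_le_card ?_)
    intro u hu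
    exact ((D_insert T A y u).1 hu).1
  have hbound : ∀ x : Fin n, (X.filter (fun u => T.Adj x u)).card ≤ M - L := by
    intro x
    -- the missed part
    have hmiss : ∃ Y ⊆ D T A, L ≤ Y.card ∧ ∀ u ∈ Y, ¬ T.Adj x u := by
      by_cases hx : x ∈ A
      · refine ⟨D T A, Finset.Subset.refl _, hL, ?_⟩
        intro u hu hxu
        exact asymm T hxu ((mem_D T A u).1 hu x hx)
      · refine ⟨D T (insert x A), ?_, h _ (by rw [Finset.card_insert_of_notMem hx, hA]), ?_⟩
        · intro u hu
          exact ((D_insert T A x u).1 hu).1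
        · intro u hu hxu
          exact asymm T hxu ((D_insert T A x u).1 hu).2
    obtain ⟨Y, hYD, hYL, hYx⟩ := hmiss
    have hdisj : Disjoint (X.filter (fun u => T.Adj x u)) Y := by
      rw [Finset.disjoint_left]
      intro u hu hu'
      exact hYx u hu' (Finset.mem_filter.1 hu).2
    have hsub : (X.filter (fun u => T.Adj x u)) ∪ Y ⊆ X := by
      intro u hu
      rcases Finset.mem_union.1 hu with hu | hu
      · exact (Finset.mem_filter.1 hu).1
      · exact hDX (hYD hu)
    have := Finset.card_le_card hsub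
    rw [Finset.card_union_of_disjoint hdisj, hX] at this
    omega
  have hcover : X.powersetCard k ⊆
      (univ : Finset (Fin n)).biUnion (fun x => (X.filter (fun u => T.Adj x u)).powersetCard k) := by
    intro B hB
    rw [Finset.mem_powersetCard] at hB
    obtain ⟨x, hx⟩ := hS B hB.2
    rw [Finset.mem_biUnion]
    refine ⟨x, Finset.mem_univ _, ?_⟩
    rw [Finset.mem_powersetCard]
    refine ⟨?_, hB.2⟩
    intro u hu
    exact Finset.mem_filter.2 ⟨hB.1 hu, hx u hu⟩
  calc M.choose k = (X.powersetCard k).card := by rw [Finset.card_powersetCard, hX]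
    _ ≤ _ := Finset.card_le_card hcover
    _ ≤ ∑ x : Fin n, ((X.filter (fun u => T.Adj x u)).powersetCard k).card :=
        Finset.card_biUnion_le
    _ ≤ ∑ _x : Fin n, (M - L).choose k := by
        apply Finset.sum_le_sum
        intro x _
        rw [Finset.card_powersetCard]
        exact Nat.choose_le_choose k (hbound x)
    _ = n * (M - L).choose k := by simp

end basic

/-! ### the numerical part -/

lemma term {x y q t : ℕ} (h : x ≤ y) : (x * q - t) * y ≤ (y * q - t) * x := by
  by_cases ht : t ≤ x * q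
  · have ht' : t ≤ y * q := ht.trans (Nat.mul_le_mul_right q h)
    zify [ht, ht']
    have : (t : ℤ) * x ≤ t * y := by
      have : (x : ℤ) ≤ y := by exact_mod_cast h
      exact mul_le_mul_of_nonneg_left this (by positivity)
    nlinarith
  · have : x * q - t = 0 := by omega
    rw [this]; simp

lemma block {x y q : ℕ} (h : x ≤ y) :
    (x * q).descFactorial q * y ^ q ≤ (y * q).descFactorial q * x ^ q := by
  rw [Nat.descFactorial_eq_prod_range, Nat.descFactorial_eq_prod_range]
  have e1 : ∀ z : ℕ, z ^ q = ∏ _i ∈ range q, z := by intro z; simp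
  rw [e1 y, e1 x, ← Finset.prod_mul_distrib, ← Finset.prod_mul_distrib]
  exact Finset.prod_le_prod' (fun i _ => term h)

lemma desc_add (a b c : ℕ) :
    a.descFactorial (b + c) = a.descFactorial b * (a - b).descFactorial c := by
  rw [Nat.descFactorial_eq_prod_range, Nat.descFactorial_eq_prod_range,
    Nat.descFactorial_eq_prod_range, Finset.prod_range_add]
  congr 1
  apply Finset.prod_congr rfl
  intro i _
  omega

lemma desc_mono {a b : ℕ} (h : a ≤ b) (c : ℕ) : a.descFactorial c ≤ b.descFactorial c := by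
  rw [Nat.descFactorial_eq_prod_range, Nat.descFactorial_eq_prod_range]
  exact Finset.prod_le_prod' (fun i _ => by omega)

lemma blocks {α μ q : ℕ} (h : α ≤ μ) (t : ℕ) :
    (α * q).descFactorial (t * q) * (μ.descFactorial t) ^ q ≤
      (μ * q).descFactorial (t * q) * (α.descFactorial t) ^ q := by
  induction t with
  | zero => simp
  | succ t ih =>
    have e1 : (t + 1) * q = t * q + q := by ring
    rw [e1, desc_add (α * q) (t * q) q, desc_add (μ * q) (t * q) q, Nat.descFactorial_succ,
      Nat.descFactorial_succ]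
    have e2 : α * q - t * q = (α - t) * q := by rw [Nat.sub_mul]
    have e3 : μ * q - t * q = (μ - t) * q := by rw [Nat.sub_mul]
    rw [e2, e3, mul_pow, mul_pow]
    have hb := block (x := α - t) (y := μ - t) (q := q) (by omega)
    calc (α * q).descFactorial (t * q) * ((α - t) * q).descFactorial q *
          ((μ - t) ^ q * μ.descFactorial t ^ q)
        = ((α * q).descFactorial (t * q) * μ.descFactorial t ^ q) *
          (((α - t) * q).descFactorial q * (μ - t) ^ q) := by ring
      _ ≤ ((μ * q).descFactorial (t * q) * α.descFactorial t ^ q) *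
          (((μ - t) * q).descFactorial q * (α - t) ^ q) := Nat.mul_le_mul ih hb
      _ = _ := by ring

/-- from the counting inequality to an inequality of powers -/
lemma powers {α μ q k n t : ℕ} (h : α ≤ μ) (htq : t * q ≤ k) (hk : k ≤ μ * q)
    (hc : (μ * q).choose k ≤ n * (α * q).choose k) :
    (μ.descFactorial t) ^ q ≤ n * (α.descFactorial t) ^ q := by
  obtain ⟨s, rfl⟩ := Nat.exists_eq_add_of_le htq
  have h1 : (μ * q).descFactorial (t * q + s) ≤ n * (α * q).descFactorial (t * q + s) := by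
    rw [Nat.descFactorial_eq_factorial_mul_choose, Nat.descFactorial_eq_factorial_mul_choose]
    calc (t * q + s).factorial * (μ * q).choose (t * q + s)
        ≤ (t * q + s).factorial * (n * (α * q).choose (t * q + s)) := Nat.mul_le_mul_left _ hc
      _ = _ := by ring
  rw [desc_add, desc_add] at h1
  have hpos : 0 < (μ * q - t * q).descFactorial s := by
    rw [Nat.descFactorial_pos]
    omega
  have h2 : (α * q - t * q).descFactorial s ≤ (μ * q - t * q).descFactorial s :=
    desc_mono (Nat.sub_le_sub_right (Nat.mul_le_mul_right q h) _) s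
  have h3 : (μ * q).descFactorial (t * q) ≤ n * (α * q).descFactorial (t * q) := by
    have : (μ * q).descFactorial (t * q) * (μ * q - t * q).descFactorial s ≤
        n * (α * q).descFactorial (t * q) * (μ * q - t * q).descFactorial s := by
      calc _ ≤ _ := h1
        _ = n * (α * q).descFactorial (t * q) * (α * q - t * q).descFactorial s := by ring
        _ ≤ _ := Nat.mul_le_mul_left _ h2
    exact Nat.le_of_mul_le_mul_right this hpos
  have hpos2 : 0 < (μ * q).descFactorial (t * q) := by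
    rw [Nat.descFactorial_pos]; omega
  have h4 := blocks (q := q) h t
  have h5 : (μ * q).descFactorial (t * q) * (μ.descFactorial t) ^ q ≤
      (μ * q).descFactorial (t * q) * (n * (α.descFactorial t) ^ q) := by
    calc (μ * q).descFactorial (t * q) * (μ.descFactorial t) ^ q
        ≤ n * (α * q).descFactorial (t * q) * (μ.descFactorial t) ^ q :=
          Nat.mul_le_mul_right _ h3
      _ = n * ((α * q).descFactorial (t * q) * (μ.descFactorial t) ^ q) := by ring
      _ ≤ n * ((μ * q).descFactorial (t * q) * (α.descFactorial t) ^ q) :=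
          Nat.mul_le_mul_left _ h4
      _ = _ := by ring
  exact Nat.le_of_mul_le_mul_left h5 hpos2

lemma pw (q : ℕ) (hq : 1700 ≤ q) : 200 * 2 ^ 200 * (q + 1) * 10 ^ q < 11 ^ q := by
  induction q, hq using Nat.le_induction with
  | base => decide +kernel
  | succ q hq ih =>
    generalize 200 * 2 ^ 200 = c at ih ⊢
    calc c * (q + 1 + 1) * 10 ^ (q + 1) = c * (10 * (q + 2)) * 10 ^ q := by ring
      _ ≤ c * (11 * (q + 1)) * 10 ^ q :=
          Nat.mul_le_mul_right _ (Nat.mul_le_mul_left _ (by omega))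
      _ = 11 * (c * (q + 1) * 10 ^ q) := by ring
      _ < 11 * 11 ^ q := Nat.mul_lt_mul_of_pos_left ih (by norm_num)
      _ = 11 ^ (q + 1) := by ring

lemma ev {X Y : ℕ} (hY : 0 < Y) (h : 11 * Y ≤ 10 * X) (q : ℕ) (hq : 1700 ≤ q) :
    200 * 2 ^ 200 * (q + 1) * Y ^ q < X ^ q := by
  have h1 := pw q hq
  generalize 200 * 2 ^ 200 = c at h1 ⊢
  have h2 : 11 ^ q * Y ^ q ≤ 10 ^ q * X ^ q := by
    rw [← mul_pow, ← mul_pow]
    exact Nat.pow_le_pow_left h q
  have h3 : 10 ^ q * (c * (q + 1) * Y ^ q) < 10 ^ q * X ^ q := by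
    calc 10 ^ q * (c * (q + 1) * Y ^ q) = c * (q + 1) * 10 ^ q * Y ^ q := by ring
      _ < 11 ^ q * Y ^ q := Nat.mul_lt_mul_of_pos_right h1 (pow_pos hY q)
      _ ≤ 10 ^ q * X ^ q := h2
  exact Nat.lt_of_mul_lt_mul_left h3

lemma step {n : ℕ} (T : Tournament (Fin n)) {k j q b α μ t : ℕ} (hk : k ≤ n) (hj : j < k)
    (hS : T.HasS k) (hP : P T (j + 1) (b * q + 1)) (hμ : α + b = μ) (htq : t * q ≤ k)
    (hkμ : k ≤ μ * q) (hμn : μ * q ≤ n)
    (hnum : n * (α.descFactorial t) ^ q < (μ.descFactorial t) ^ q) :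
    P T j (μ * q + 1) := by
  intro A hA
  by_contra hlt
  have h1 := count T hk hj hS hP A hA (M := μ * q) (by omega) hμn
  have h2 : μ * q - (b * q + 1) ≤ α * q := by
    rw [← hμ, add_mul]; omega
  have h3 : (μ * q).choose k ≤ n * (α * q).choose k :=
    h1.trans (Nat.mul_le_mul_left _ (Nat.choose_le_choose k h2))
  have h4 := powers (t := t) (by omega) htq hkμ h3
  omega

lemma num {n k q α μ : ℕ}
    (hQ : 200 * 2 ^ 200 * (q + 1) * (2 ^ 200 * α.descFactorial 200) ^ q <
      (μ.descFactorial 200) ^ q)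
    (hkq : k ≤ 200 * (q + 1)) (hn : n ≤ k * 2 ^ k) :
    n * (α.descFactorial 200) ^ q < (μ.descFactorial 200) ^ q := by
  refine lt_of_le_of_lt ?_ hQ
  have h1 : n ≤ 200 * (q + 1) * 2 ^ (200 * (q + 1)) :=
    hn.trans (Nat.mul_le_mul hkq (Nat.pow_le_pow_right (by norm_num) hkq))
  calc n * (α.descFactorial 200) ^ q
      ≤ 200 * (q + 1) * 2 ^ (200 * (q + 1)) * (α.descFactorial 200) ^ q :=
        Nat.mul_le_mul_right _ h1
    _ = 200 * 2 ^ 200 * (q + 1) * (2 ^ 200 * α.descFactorial 200) ^ q := by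
        rw [mul_pow, ← pow_mul, mul_add, pow_add]; ring

lemma aux1 {k n : ℕ} (h : (n : ℝ) < (19 / 25 : ℝ) * k * 2 ^ k) : n ≤ k * 2 ^ k := by
  have : (n : ℝ) ≤ ((k * 2 ^ k : ℕ) : ℝ) := by
    push_cast
    refine h.le.trans ?_
    have : (0 : ℝ) ≤ (k : ℝ) * 2 ^ k := by positivity
    nlinarith
  exact_mod_cast this

lemma aux2 {k' q n : ℕ} (hk : 400000 ≤ k' + 7) (hq : k' + 7 ≤ 200 * q + 199)
    (h : (2 : ℝ) ^ k' * (19472 * q + 2) ≤ n + 1)
    (hcon : (n : ℝ) < (19 / 25 : ℝ) * ((k' + 7 : ℕ) : ℝ) * 2 ^ (k' + 7)) : False := by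
  have hpow : (2 : ℝ) ^ (k' + 7) = 128 * 2 ^ k' := by
    rw [pow_add]; norm_num; ring
  have hone : (1 : ℝ) ≤ 2 ^ k' := one_le_pow₀ (by norm_num)
  have hqr : ((k' + 7 : ℕ) : ℝ) ≤ 200 * q + 199 := by exact_mod_cast hq
  have hkr : (400000 : ℝ) ≤ ((k' + 7 : ℕ) : ℝ) := by exact_mod_cast hk
  rw [hpow] at hcon
  generalize ((k' + 7 : ℕ) : ℝ) = k at *
  have hkey : (19 / 25 : ℝ) * k * 128 + 1 ≤ 19472 * q + 2 := by
    linarith
  have h3 : (2 : ℝ) ^ k' * ((19 / 25 : ℝ) * k * 128 + 1) ≤ n + 1 :=
    (mul_le_mul_of_nonneg_left hkey (by positivity)).trans h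
  have h4 : (2 : ℝ) ^ k' * ((19 / 25 : ℝ) * k * 128 + 1) =
      (19 / 25 : ℝ) * k * (128 * 2 ^ k') + 2 ^ k' := by ring
  rw [h4] at h3
  linarith

lemma main (k : ℕ) (hK : 400000 ≤ k) (n : ℕ) (hkn : k ≤ n) (T : Tournament (Fin n))
    (hS : T.HasS k) : (19 / 25 : ℝ) * k * 2 ^ k ≤ n := by
  by_contra hcon
  push Not at hcon
  obtain ⟨k', rfl⟩ : ∃ k', k = k' + 7 := ⟨k - 7, by omega⟩
  set k := k' + 7 with hkdef
  set q := k / 200 with hq
  have hq1 : 200 * q ≤ k := Nat.mul_div_le k 200
  have hq2 : k < 200 * (q + 1) := by omega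
  have hqQ : 1700 ≤ q := by omega
  have h1 := ev (X := Nat.descFactorial 511 200) (Y := 2 ^ 200 * Nat.descFactorial 311 200)
    (by decide +kernel) (by decide +kernel) q hqQ
  have h2 := ev (X := Nat.descFactorial 1125 200) (Y := 2 ^ 200 * Nat.descFactorial 614 200)
    (by decide +kernel) (by decide +kernel) q hqQ
  have h3 := ev (X := Nat.descFactorial 2350 200) (Y := 2 ^ 200 * Nat.descFactorial 1225 200)
    (by decide +kernel) (by decide +kernel) q hqQ
  have h4 := ev (X := Nat.descFactorial 4798 200) (Y := 2 ^ 200 * Nat.descFactorial 2448 200)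
    (by decide +kernel) (by decide +kernel) q hqQ
  have h5 := ev (X := Nat.descFactorial 9691 200) (Y := 2 ^ 200 * Nat.descFactorial 4893 200)
    (by decide +kernel) (by decide +kernel) q hqQ
  have h6 := ev (X := Nat.descFactorial 19472 200) (Y := 2 ^ 200 * Nat.descFactorial 9781 200)
    (by decide +kernel) (by decide +kernel) q hqQ
  have hn : n ≤ k * 2 ^ k := aux1 hcon
  have hL1 : P T (k' + 6) (k + 1) := level_one T (k := k' + 6) hkn hS
  have hnbig : 256 * (k + 2) ≤ n + 1 := by
    have := double_iter T hkn hS (k' + 6) (by omega) hL1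
    refine le_trans ?_ this
    apply Nat.mul_le_mul _ le_rfl
    calc 256 = 2 ^ 8 := by norm_num
      _ ≤ 2 ^ (k' + 6) := Nat.pow_le_pow_right (by norm_num) (by omega)
  have hL2 : P T (k' + 6) (200 * q + 1) := fun A hA => le_trans (by omega) (hL1 A hA)
  have s1 : P T (k' + 5) (511 * q + 1) := step T (t := 200) (α := 311) hkn (by omega) hS hL2
    (by norm_num) hq1 (by omega) (by omega) (num h1 hq2.le hn)
  have s2 : P T (k' + 4) (1125 * q + 1) := step T (t := 200) (α := 614) hkn (by omega) hS s1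
    (by norm_num) hq1 (by omega) (by omega) (num h2 hq2.le hn)
  have s3 : P T (k' + 3) (2350 * q + 1) := step T (t := 200) (α := 1225) hkn (by omega) hS s2
    (by norm_num) hq1 (by omega) (by omega) (num h3 hq2.le hn)
  have s4 : P T (k' + 2) (4798 * q + 1) := step T (t := 200) (α := 2448) hkn (by omega) hS s3
    (by norm_num) hq1 (by omega) (by omega) (num h4 hq2.le hn)
  have s5 : P T (k' + 1) (9691 * q + 1) := step T (t := 200) (α := 4893) hkn (by omega) hS s4
    (by norm_num) hq1 (by omega) (by omega) (num h5 hq2.le hn)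
  have s6 : P T k' (19472 * q + 1) := step T (t := 200) (α := 9781) hkn (by omega) hS s5
    (by norm_num) hq1 (by omega) (by omega) (num h6 hq2.le hn)
  have hfin := double_iter T hkn hS k' (by omega) s6
  have hfin' : (2 : ℝ) ^ k' * (19472 * q + 2) ≤ n + 1 := by
    have : ((2 ^ k' * (19472 * q + 1 + 1) : ℕ) : ℝ) ≤ ((n + 1 : ℕ) : ℝ) := by exact_mod_cast hfin
    push_cast at this
    linarith
  exact aux2 (by omega) (by omega) hfin' hcon

/-! ### tournaments with property `S_k` exist (Erdős' counting argument) -/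

/-- the tournament coded by a `0/1` matrix -/
def tour {N : ℕ} (f : Fin N → Fin N → Bool) : Tournament (Fin N) where
  Adj u v := (u < v ∧ (xor (f u v) (f v u)) = true) ∨ (v < u ∧ (xor (f u v) (f v u)) = false)
  loopless := by
    intro v h
    rcases h with h | h <;> exact absurd h.1 (lt_irrefl v)
  exactlyOne := by
    intro u v huv
    rcases lt_or_gt_of_ne huv with h | h
    · have h' : ¬ v < u := not_lt.2 h.le
      cases hu : f u v <;> cases hv : f v u <;> simp [h, h']
    · have h' : ¬ u < v := not_lt.2 h.le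
      cases hu : f u v <;> cases hv : f v u <;> simp [h, h']

open Classical in
/-- matrices without a dominator of `S` -/
noncomputable def bad {N : ℕ} (S : Finset (Fin N)) : Finset (Fin N → Fin N → Bool) :=
  univ.filter (fun f => ∀ v, ¬ ∀ w ∈ S, (tour f).Adj v w)

open Classical in
noncomputable def phi {N : ℕ} (S : Finset (Fin N)) (f : Fin N → Fin N → Bool) :
    Fin N → Fin N → Bool :=
  fun v s => if v ∉ S ∧ s ∈ S then xor (f v s) (f s v) else f v s

lemma phi_inj {N : ℕ} (S : Finset (Fin N)) : Function.Injective (phi S) := by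
  intro f g h
  have h' : ∀ v s, phi S f v s = phi S g v s := fun v s => by rw [h]
  funext v s
  by_cases hc : v ∉ S ∧ s ∈ S
  · have h1 := h' s v
    have h2 := h' v s
    have hc' : ¬ (s ∉ S ∧ v ∈ S) := fun h => h.1 hc.2
    simp only [phi, if_neg hc', if_pos hc] at h1 h2
    rw [h1] at h2
    revert h2
    cases f v s <;> cases g v s <;> cases g s v <;> simp
  · have h2 := h' v s
    simpa only [phi, if_neg hc] using h2

open Classical in
/-- the rows avoiding the forbidden pattern -/
noncomputable def rows {N : ℕ} (S : Finset (Fin N)) (v : Fin N) : Finset (Fin N → Bool) :=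
  if v ∈ S then univ else univ.filter (fun row => ¬ ∀ s ∈ S, row s = decide (v < s))

lemma phi_mem {N : ℕ} (S : Finset (Fin N)) {f : Fin N → Fin N → Bool} (hf : f ∈ bad S) :
    phi S f ∈ Fintype.piFinset (rows S) := by
  classical
  rw [Fintype.mem_piFinset]
  intro v
  by_cases hv : v ∈ S
  · simp [rows, hv]
  · simp only [rows, if_neg hv, Finset.mem_filter, Finset.mem_univ, true_and]
    intro hall
    apply (Finset.mem_filter.1 hf).2 v
    intro w hw
    have h1 := hall w hw
    simp only [phi, hv, hw, not_false_eq_true, and_self, if_true] at h1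
    have hne : v ≠ w := fun e => hv (e ▸ hw)
    rcases lt_or_gt_of_ne hne with h | h
    · left
      refine ⟨h, ?_⟩
      rw [h1]; simp [h]
    · right
      refine ⟨h, ?_⟩
      rw [h1]; simp [not_lt.2 h.le]

lemma card_pattern {N k M : ℕ} (hN : N = k + M) (S : Finset (Fin N)) (hS : S.card = k)
    (c : Fin N → Bool) :
    ((univ : Finset (Fin N → Bool)).filter (fun row => ∀ s ∈ S, row s = c s)).card = 2 ^ M := by
  classical
  have : (univ : Finset (Fin N → Bool)).filter (fun row => ∀ s ∈ S, row s = c s)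
      = Fintype.piFinset (fun s => if s ∈ S then ({c s} : Finset Bool) else univ) := by
    ext row
    simp only [Finset.mem_filter, Finset.mem_univ, true_and, Fintype.mem_piFinset]
    constructor
    · intro h s
      by_cases hs : s ∈ S
      · simp [hs, h s hs]
      · simp [hs]
    · intro h s hs
      have := h s
      simpa [hs] using this
  rw [this, Fintype.card_piFinset]
  have h2 : ∀ s : Fin N, (if s ∈ S then ({c s} : Finset Bool) else univ).card
      = if s ∈ S then 1 else 2 := by
    intro s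
    split_ifs <;> simp
  rw [Finset.prod_congr rfl (fun s _ => h2 s), Finset.prod_ite]
  simp only [Finset.prod_const, one_pow, one_mul]
  congr 1
  have h3 : (univ.filter (fun s : Fin N => ¬ s ∈ S)) = Sᶜ := by
    ext s; simp
  rw [h3, Finset.card_compl, Fintype.card_fin, hS, hN]
  omega

lemma card_bad {N k M : ℕ} (hN : N = k + M) (S : Finset (Fin N)) (hS : S.card = k) :
    (bad S).card ≤ (2 ^ N) ^ k * (2 ^ N - 2 ^ M) ^ M := by
  classical
  have h1 : (bad S).card ≤ (Fintype.piFinset (rows S)).card :=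
    Finset.card_le_card_of_injOn (phi S) (fun f hf => phi_mem S hf) ((phi_inj S).injOn)
  refine h1.trans (le_of_eq ?_)
  rw [Fintype.card_piFinset]
  have h2 : ∀ v : Fin N, (rows S v).card = if v ∈ S then 2 ^ N else 2 ^ N - 2 ^ M := by
    intro v
    unfold rows
    split_ifs with hv
    · simp
    · have := card_pattern hN S hS (fun s => decide (v < s))
      rw [Finset.filter_not, Finset.card_sdiff_of_subset (Finset.filter_subset _ _), this]
      simp
  rw [Finset.prod_congr rfl (fun s _ => h2 s), Finset.prod_ite]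
  simp only [Finset.prod_const]
  congr 2
  · rw [← hS]; congr 1; ext s; simp
  · have h3 : (univ.filter (fun s : Fin N => ¬ s ∈ S)) = Sᶜ := by
      ext s; simp
    rw [h3, Finset.card_compl, Fintype.card_fin, hS, hN]
    omega

lemma exists_M (k : ℕ) (hk : 1 ≤ k) : ∃ M : ℕ, (k + M).choose k * (2 ^ k - 1) ^ M < (2 ^ k) ^ M := by
  have h2k : 2 ≤ 2 ^ k := by
    calc 2 = 2 ^ 1 := by norm_num
      _ ≤ 2 ^ k := Nat.pow_le_pow_right (by norm_num) hk
  have hY : (0 : ℝ) < ((2 ^ k - 1 : ℕ) : ℝ) := by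
    have : 0 < 2 ^ k - 1 := by omega
    exact_mod_cast this
  set r : ℝ := ((2 ^ k : ℕ) : ℝ) / ((2 ^ k - 1 : ℕ) : ℝ) with hr
  have hr1 : 1 < r := by
    rw [hr, one_lt_div hY]
    have : 2 ^ k - 1 < 2 ^ k := by omega
    exact_mod_cast this
  have h1 := (tendsto_pow_const_div_const_pow_of_one_lt k hr1).const_mul (((k + 1 : ℕ) : ℝ) ^ k)
  rw [mul_zero] at h1
  have h3 := h1.eventually (gt_mem_nhds (show (0 : ℝ) < 1 by norm_num))
  obtain ⟨Q, hQ⟩ := Filter.eventually_atTop.1 h3
  refine ⟨Q + 1, ?_⟩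
  set M := Q + 1 with hM
  have h4 := hQ M (by omega)
  have hrM : (0 : ℝ) < r ^ M := pow_pos (by linarith) M
  rw [← mul_div_assoc, div_lt_one hrM] at h4
  have h5 : (((k + M).choose k : ℕ) : ℝ) ≤ ((k + 1 : ℕ) : ℝ) ^ k * (M : ℝ) ^ k := by
    have : (k + M).choose k ≤ (k + 1) ^ k * M ^ k := by
      rw [← mul_pow]
      refine (Nat.choose_le_pow (k + M) k).trans (Nat.pow_le_pow_left ?_ k)
      nlinarith
    exact_mod_cast this
  have h6 : (((k + M).choose k : ℕ) : ℝ) < r ^ M := h5.trans_lt h4
  have h7 : (((k + M).choose k : ℕ) : ℝ) * ((2 ^ k - 1 : ℕ) : ℝ) ^ M < ((2 ^ k : ℕ) : ℝ) ^ M := by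
    have hYM : (0 : ℝ) < ((2 ^ k - 1 : ℕ) : ℝ) ^ M := pow_pos hY M
    calc _ < r ^ M * ((2 ^ k - 1 : ℕ) : ℝ) ^ M := mul_lt_mul_of_pos_right h6 hYM
      _ = ((2 ^ k : ℕ) : ℝ) ^ M := by
        rw [hr, ← mul_pow, div_mul_cancel₀ _ hY.ne']
  exact_mod_cast h7

lemma exists_HasS (k : ℕ) (hk : 1 ≤ k) : ∃ n : ℕ, k ≤ n ∧ ∃ T : Tournament (Fin n), T.HasS k := by
  classical
  obtain ⟨M, hM⟩ := exists_M k hk
  refine ⟨k + M, by omega, ?_⟩
  by_contra hcon
  push Not at hcon
  have hcover : (univ : Finset (Fin (k + M) → Fin (k + M) → Bool)) ⊆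
      ((univ : Finset (Fin (k + M))).powersetCard k).biUnion bad := by
    intro f _
    have := hcon (tour f)
    unfold Tournament.HasS at this
    push Not at this
    obtain ⟨S, hS, hbad⟩ := this
    rw [Finset.mem_biUnion]
    refine ⟨S, Finset.mem_powersetCard.2 ⟨Finset.subset_univ _, hS⟩, ?_⟩
    rw [bad, Finset.mem_filter]
    refine ⟨Finset.mem_univ _, fun v hv => ?_⟩
    obtain ⟨w, hw, hw'⟩ := hbad v
    exact hw' (hv w hw)
  have h1 : (2 ^ (k + M)) ^ (k + M) ≤
      (k + M).choose k * ((2 ^ (k + M)) ^ k * (2 ^ (k + M) - 2 ^ M) ^ M) := by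
    calc (2 ^ (k + M)) ^ (k + M) = (univ : Finset (Fin (k + M) → Fin (k + M) → Bool)).card := by
          simp
      _ ≤ _ := Finset.card_le_card hcover
      _ ≤ ∑ S ∈ (univ : Finset (Fin (k + M))).powersetCard k, (bad S).card :=
          Finset.card_biUnion_le
      _ ≤ ∑ _S ∈ (univ : Finset (Fin (k + M))).powersetCard k,
            ((2 ^ (k + M)) ^ k * (2 ^ (k + M) - 2 ^ M) ^ M) :=
          Finset.sum_le_sum (fun S hS => card_bad rfl S (Finset.mem_powersetCard.1 hS).2)
      _ = _ := by simp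
  have h2 : 2 ^ (k + M) - 2 ^ M = 2 ^ M * (2 ^ k - 1) := by
    rw [Nat.mul_sub, mul_one, pow_add, mul_comm]
  rw [h2, pow_add (2 ^ (k + M)) k M] at h1
  have h3 : (k + M).choose k * ((2 ^ (k + M)) ^ k * (2 ^ M * (2 ^ k - 1)) ^ M) <
      (2 ^ (k + M)) ^ k * (2 ^ (k + M)) ^ M := by
    have hpos : 0 < (2 ^ (k + M)) ^ k * (2 ^ M) ^ M := by positivity
    calc (k + M).choose k * ((2 ^ (k + M)) ^ k * (2 ^ M * (2 ^ k - 1)) ^ M)
        = ((2 ^ (k + M)) ^ k * (2 ^ M) ^ M) * ((k + M).choose k * (2 ^ k - 1) ^ M) := by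
          rw [mul_pow]; ring
      _ < ((2 ^ (k + M)) ^ k * (2 ^ M) ^ M) * (2 ^ k) ^ M := Nat.mul_lt_mul_of_pos_left hM hpos
      _ = (2 ^ (k + M)) ^ k * (2 ^ (k + M)) ^ M := by
          rw [pow_add 2 k M, mul_pow (2 ^ k) (2 ^ M) M]; ring
  omega

/-- **`m(k) ≥ 0.76 k 2^k` for all `k ≥ 400000`**, where `m k` is the least `n ≥ k` such that some
tournament on `n` vertices has property `S_k`. -/
theorem result : ∀ k : ℕ, 400000 ≤ k → (19 / 25 : ℝ) * k * 2 ^ k ≤ m k := by
  intro k hk
  have hmem : m k ∈ {n : ℕ | k ≤ n ∧ ∃ T : Tournament (Fin n), T.HasS k} :=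
    Nat.sInf_mem (exists_HasS k (by omega))
  obtain ⟨h1, T, h2⟩ := hmem
  exact main k hk _ h1 T h2

end Pool.Agent.Results.MP_42c63a_co.AsymptoticLower
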