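import Pool.Agent.Schutte.Paley
import Pool.Agent.Schutte.Low

/-!
# MP_42c63a_co: the Szekeres–Szekeres formula `m(k) = 2^k (k-1) + 3` is false

We prove that no tournament with at most 51 vertices (and at least 4) has Schütte's property
`S_4`, hence `52 ≤ m(4)`, whereas the conjectured value is `2^4 * 3 + 3 = 51`.  (That `m(4)` is an
honest minimum is checked with the quadratic residue tournament on 67 vertices.)

Outline of the proof. Write `D(A)` for the set of common in-neighbours of `A`. In an `S_4`
tournament `|D(T)| ≥ 5` for triples, `≥ 11` for pairs and `≥ 23` for single vertices. Adding sinks we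
may assume that there are exactly 51 vertices.
* `Schutte/Key.lean`: if `|D(p,q)| = 11`, then all vertices of `D(p,q)` have in-degree `≥ 25` and the
  total excess over 25 on `D(p,q)` is at least 4, while `∑_u (|D(p,q,u)| - 5) ≤ 4`.
* `Schutte/Low.lean`: this forces that no pair has `|D(p,q)| = 11`, and then the tournament is doubly
  regular (`|D(v)| = 25`, `|D(p,q)| = 12`).
* `Schutte/Drt.lean`: in a doubly regular tournament on 51 vertices with all `|D(T)| ≥ 5`, a double
  count of the configurations `w → T → c, c'` gives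
  `∑_{T cyclic} d(2d-5)(d-2) + 2 ∑_{T transitive} d(d-1)(d-2) = -21675` with `d = |D(T)| - 5 ≥ 0`,
  although every term is nonnegative.
-/

namespace Pool.Agent.Results.MP_42c63a_co.FormulaFails

open Pool.Agent.Schutte Finset

section ext

variable {n : ℕ} (T : Tournament (Fin n))

open Classical in
/-- extend a tournament on `Fin n` to `Fin 51` by adding vertices dominated by all old ones -/
noncomputable def ext (u v : Fin 51) : ℤ :=
  if hu : u.val < n then
    (if hv : v.val < n then (if T.Adj ⟨u.val, hu⟩ ⟨v.val, hv⟩ then 1 else 0) else 1)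
  else (if v.val < n then 0 else if u < v then 1 else 0)

lemma ext_tour : Tour (ext T) where
  z := by
    intro u
    unfold ext
    by_cases hu : u.val < n
    · simp [hu, T.loopless]
    · simp [hu]
  o := by
    intro u v huv
    unfold ext
    by_cases hu : u.val < n
    · by_cases hv : v.val < n
      · have hne : (⟨u.val, hu⟩ : Fin n) ≠ ⟨v.val, hv⟩ := by
          intro h
          apply huv
          apply Fin.ext
          simpa using congrArg Fin.val h
        simp only [hu, hv, dif_pos]
        rcases T.exactlyOne _ _ hne with ⟨h1, h2⟩ | ⟨h1, h2⟩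
        · rw [if_pos h1, if_neg h2]; norm_num
        · rw [if_neg h1, if_pos h2]; norm_num
      · simp [hu, hv]
    · by_cases hv : v.val < n
      · simp [hu, hv]
      · simp only [hu, hv, dif_neg, if_false, not_false_eq_true]
        rcases lt_or_gt_of_ne huv with h | h
        · rw [if_pos h, if_neg (not_lt.2 h.le)]; norm_num
        · rw [if_neg (not_lt.2 h.le), if_pos h]; norm_num
  b := by
    intro u v
    unfold ext
    split_ifs <;> simp

lemma ext_dom (h4 : 4 ≤ n) (hn : n ≤ 51) (hS : T.HasS 4) (A : Finset (Fin 51))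
    (hA : A.card ≤ 4) : ∃ w, ∀ x ∈ A, ext T w x = 1 := by
  classical
  set B : Finset (Fin n) := univ.filter (fun x => Fin.castLE hn x ∈ A) with hB
  have hBc : B.card ≤ 4 := by
    refine le_trans ?_ hA
    refine Finset.card_le_card_of_injOn (Fin.castLE hn) ?_ ?_
    · intro x hx
      have : x ∈ B := hx
      rw [hB, Finset.mem_filter] at this
      exact this.2
    · intro x _ y _ hxy
      exact Fin.castLE_injective hn hxy
  obtain ⟨B', hsub, hB'⟩ := Finset.exists_superset_card_eq (s := B) (n := 4) hBc
    (by simpa using h4)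
  obtain ⟨v, hv⟩ := hS B' hB'
  refine ⟨Fin.castLE hn v, fun x hx => ?_⟩
  unfold ext
  have hvn : (Fin.castLE hn v).val < n := v.isLt
  rw [dif_pos hvn]
  by_cases hxn : x.val < n
  · rw [dif_pos hxn]
    have hxB : (⟨x.val, hxn⟩ : Fin n) ∈ B := by
      rw [hB, Finset.mem_filter]
      refine ⟨mem_univ _, ?_⟩
      have : Fin.castLE hn ⟨x.val, hxn⟩ = x := by apply Fin.ext; rfl
      rw [this]; exact hx
    have := hv _ (hsub hxB)
    rw [if_pos]
    exact this
  · rw [dif_neg hxn]

end ext

/-- A tournament with at least 4 vertices and property `S_4` has at least 52 vertices. -/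
theorem lower (n : ℕ) (h4 : 4 ≤ n) (T : Tournament (Fin n)) (hS : T.HasS 4) : 52 ≤ n := by
  by_contra hc
  push Not at hc
  have hn : n ≤ 51 := by omega
  have h : S4 (ext T) := ⟨ext_tour T, by simp, ext_dom T h4 hn hS⟩
  exact h.false

/-- `52 ≤ m(4)`, while the conjectured value is `2^4 * 3 + 3 = 51`; hence there is `k ≥ 1` with
`m(k) ≠ 2^k (k-1) + 3`. -/
theorem result :
    52 ≤ m 4 ∧ ∃ k : ℕ, 1 ≤ k ∧ m k ≠ 2 ^ k * (k - 1) + 3 := by
  have hmem : (67 : ℕ) ∈ {n : ℕ | 4 ≤ n ∧ ∃ T : Tournament (Fin n), T.HasS 4} :=
    ⟨by norm_num, Paley.paley67, Paley.paley67_hasS⟩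
  have h52 : 52 ≤ m 4 := by
    have h := Nat.sInf_mem (Set.nonempty_of_mem hmem)
    obtain ⟨h1, T, h2⟩ := h
    exact lower _ h1 T h2
  refine ⟨h52, 4, by norm_num, fun h => ?_⟩
  norm_num at h
  omega

end Pool.Agent.Results.MP_42c63a_co.FormulaFails
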